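import Mathlib

/-!
Streaming simulation of random walks: the model.
-/

open MeasureTheory

namespace Pool.Agent.Lib.MP_dcdb0f_lc

/-- Input graphs on the vertex set `Fin n`: `out v` is the set of out-neighbours of `v`.
Every vertex has at least one out-neighbour; there are no loops. -/
structure InputGraph (n : ℕ) where
  out : Fin n → Finset (Fin n)
  out_nonempty : ∀ v, (out v).Nonempty
  loopless : ∀ v, v ∉ out v

/-- `σ` is a stream for `G`: it lists every edge of `G` exactly once, in some order. -/
def IsStream {n : ℕ} (G : InputGraph n) (σ : List (Fin n × Fin n)) : Prop :=
  σ.Nodup ∧ ∀ u v, (u, v) ∈ σ ↔ v ∈ G.out u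

/-- The law of the random walk `v₀, v₁, …, v_l` (as a list of length `l + 1`) started at `v₀`:
every next vertex is a uniformly random out-neighbour of the current one. -/
noncomputable def walkLaw {n : ℕ} (G : InputGraph n) : ℕ → Fin n → PMF (List (Fin n))
  | 0, v => PMF.pure [v]
  | l + 1, v => (PMF.uniformOfFinset (G.out v) (G.out_nonempty v)).bind
      fun w => (walkLaw G l w).map (List.cons v)

/-- Feed the tokens of a list one after the other to a machine with transition function `f`
(which gets the position of the token, the current memory and the token, and returns the new
memory and a finite string to be appended to the output).  Returns the final memory and the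
string written. -/
def readTokens {M T O : Type*} (f : ℕ → M → T → M × List O) : ℕ → M → List T → M × List O
  | _, q, [] => (q, [])
  | i, q, t :: ts =>
      ((readTokens f (i + 1) (f i q t).1 ts).1,
        (f i q t).2 ++ (readTokens f (i + 1) (f i q t).1 ts).2)

/-- A randomized multi-pass streaming algorithm with `s` bits of working memory whose random
choices are given by a point of the sample space `Ω`.
* `start ω` is the initial memory content and the string written before reading anything;
* `step ω j i q t` is what the algorithm does in pass number `j` when the token number `i` is `t`
  and the memory content is `q`: the new memory content, and the string of vertices it appends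
  to the output.  A token is an edge, or `none` at the end of the stream. -/
structure StreamAlg (n s : ℕ) (Ω : Type*) where
  start : Ω → (Fin s → Bool) × List (Fin n)
  step : Ω → ℕ → ℕ → (Fin s → Bool) → Option (Fin n × Fin n) → (Fin s → Bool) × List (Fin n)

/-- Memory content and total output after `p` passes over the stream `σ`. -/
def StreamAlg.run {n s : ℕ} {Ω : Type*} (A : StreamAlg n s Ω) (ω : Ω)
    (σ : List (Fin n × Fin n)) : ℕ → (Fin s → Bool) × List (Fin n)
  | 0 => A.start ω
  | j + 1 =>
      ((readTokens (A.step ω j) 0 (A.run ω σ j).1 (σ.map some ++ [none])).1,
        (A.run ω σ j).2 ++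
          (readTokens (A.step ω j) 0 (A.run ω σ j).1 (σ.map some ++ [none])).2)

/-- The algorithm `A` (with random choices distributed according to `P`) simulates in `p` passes
the random walk of length `l` from `v₀`: for every admissible graph and every order of its edges
the output string is a random variable whose total variation distance (supremum over all events
of the difference of the probabilities) from the law of the walk is at most `1/3`. -/
def StreamAlg.Simulates {n s : ℕ} {Ω : Type*} [MeasurableSpace Ω] (A : StreamAlg n s Ω)
    (P : Measure Ω) (p l : ℕ) (v₀ : Fin n) : Prop :=
  ∀ (G : InputGraph n) (σ : List (Fin n × Fin n)), IsStream G σ →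
    ∀ E : Set (List (Fin n)),
      MeasurableSet {ω | (A.run ω σ p).2 ∈ E} ∧
      |P.real {ω | (A.run ω σ p).2 ∈ E} - ((walkLaw G l v₀).toOuterMeasure E).toReal| ≤ 1 / 3

end Pool.Agent.Lib.MP_dcdb0f_lc
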