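import Mathlib
import Pool.Agent.Lib.MP_dcdb0f_lc.Basic

/-!
Combinatorial lemmas.
-/

namespace Pool.Agent.Lib.MP_dcdb0f_lc

theorem readTokens_append {M T O : Type*} (f : ℕ → M → T → M × List O) (a b : List T) :
    ∀ (i : ℕ) (q : M), readTokens f i q (a ++ b) =
      ((readTokens f (i + a.length) (readTokens f i q a).1 b).1,
        (readTokens f i q a).2 ++ (readTokens f (i + a.length) (readTokens f i q a).1 b).2) := by
  induction a with
  | nil => intro i q; simp [readTokens]
  | cons t ts ih =>
    intro i q
    have h1 : i + 1 + ts.length = i + (ts.length + 1) := by omega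
    simp only [List.cons_append, readTokens, List.length_cons, ih, List.append_assoc, h1]

/-- consecutive pairs of a list -/
def trans {α : Type*} (L : List α) : List (α × α) := L.zip L.tail

@[simp] theorem trans_nil {α : Type*} : trans ([] : List α) = [] := rfl

@[simp] theorem trans_single {α : Type*} (a : α) : trans [a] = [] := rfl

@[simp] theorem trans_cons_cons {α : Type*} (a b : α) (L : List α) :
    trans (a :: b :: L) = (a, b) :: trans (b :: L) := rfl

theorem length_trans {α : Type*} (L : List α) : (trans L).length = L.length - 1 := by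
  simp [trans]

theorem trans_map {α β : Type*} (f : α → β) (L : List α) :
    trans (L.map f) = (trans L).map (Prod.map f f) := by
  unfold trans
  rw [← List.map_tail, List.zip_map]

theorem trans_append_sublist {α : Type*} (L L' : List α) :
    (trans L ++ trans L').Sublist (trans (L ++ L')) := by
  induction L with
  | nil => simp
  | cons a L ih =>
    cases L with
    | nil =>
      cases L' with
      | nil => simp
      | cons b L' => simp [trans_cons_cons]
    | cons b L =>
      simp only [trans_cons_cons, List.cons_append] at ih ⊢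
      exact ih.cons_cons _

theorem sublist_card {α : Type*} [DecidableEq α] {H T : List α} (h : H.Sublist T) :
    H.length + T.toFinset.card ≤ T.length + H.toFinset.card := by
  have hs : (H : Multiset α) ≤ (T : Multiset α) := h.subperm
  obtain ⟨H', hH'⟩ := Multiset.le_iff_exists_add.mp hs
  have h1 : T.length = H.length + Multiset.card H' := by
    have := congrArg Multiset.card hH'
    simpa using this
  have h2 : T.toFinset.card ≤ H.toFinset.card + Multiset.card H' := by
    have h3 : T.toFinset = H.toFinset ∪ H'.toFinset := by
      have := congrArg Multiset.toFinset hH'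
      simpa using this
    rw [h3]
    refine (Finset.card_union_le _ _).trans ?_
    have := Multiset.toFinset_card_le H'
    omega
  omega

/-- In a list all of whose consecutive pairs lie in `EA ∪ EB` and which switches between `EA` and
`EB` at every step, about half of the consecutive pairs lie in `EA`. -/
theorem alternate_count {α : Type*} [DecidableEq α] (EA EB : Finset (α × α))
    (hAB : ∀ a b c, (a, b) ∈ EA → (b, c) ∈ EA ∪ EB → (b, c) ∈ EB)
    (hBA : ∀ a b c, (a, b) ∈ EB → (b, c) ∈ EA ∪ EB → (b, c) ∈ EA) :
    ∀ (L : List α), (∀ t ∈ trans L, t ∈ EA ∪ EB) →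
      L.length ≤ 2 * ((trans L).filter (fun t => t ∈ EA)).length + 2
  | [], _ => by simp
  | [a], _ => by simp
  | [a, b], _ => by simp
  | a :: b :: c :: L, h => by
    have ih := alternate_count EA EB hAB hBA (c :: L) (by
      intro t ht
      apply h
      simp only [trans_cons_cons, List.mem_cons]
      right; right; exact ht)
    have h1 : (a, b) ∈ EA ∪ EB := h _ (by simp)
    have h2 : (b, c) ∈ EA ∪ EB := h _ (by simp)
    have h3 : 1 + ((trans (c :: L)).filter (fun t => t ∈ EA)).length ≤
        ((trans (a :: b :: c :: L)).filter (fun t => t ∈ EA)).length := by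
      simp only [trans_cons_cons, List.filter_cons]
      rcases Finset.mem_union.mp h1 with h1 | h1
      · have h4 : decide ((a, b) ∈ EA) = true := decide_eq_true h1
        rw [h4]
        by_cases h5 : (b, c) ∈ EA
        · simp [h5]; omega
        · simp [h5]; omega
      · have h4 : decide ((b, c) ∈ EA) = true := decide_eq_true (hBA a b c h1 h2)
        rw [h4]
        by_cases h5 : (a, b) ∈ EA
        · simp [h5]; omega
        · simp [h5]; omega
    simp only [List.length_cons] at ih ⊢
    omega

/-- Number of bit vectors agreeing with a given one on a set of positions. -/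
theorem card_agree {ι : Type*} [Fintype ι] [DecidableEq ι] (x₀ : ι → Bool) (D : Finset ι) :
    (Finset.univ.filter (fun x : ι → Bool => ∀ i ∈ D, x i = x₀ i)).card * 2 ^ D.card
      = 2 ^ Fintype.card ι := by
  have h1 : (Finset.univ.filter (fun x : ι → Bool => ∀ i ∈ D, x i = x₀ i)) =
      Fintype.piFinset (fun i => if i ∈ D then {x₀ i} else Finset.univ) := by
    ext x
    simp only [Finset.mem_filter, Finset.mem_univ, true_and, Fintype.mem_piFinset]
    constructor
    · intro h i
      by_cases hi : i ∈ D
      · simp [hi, h i hi]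
      · simp [hi]
    · intro h i hi
      have := h i
      simpa [hi] using this
  rw [h1, Fintype.card_piFinset]
  have h2 : ∀ i : ι, (if i ∈ D then ({x₀ i} : Finset Bool) else Finset.univ).card =
      if i ∈ D then 1 else 2 := by
    intro i; split_ifs <;> simp
  simp only [h2]
  rw [Finset.prod_ite]
  simp only [Finset.prod_const_one, Finset.prod_const, one_mul]
  rw [← pow_add, ← Finset.card_univ]
  congr 1
  have h3 := Finset.card_filter_add_card_filter_not (s := (Finset.univ : Finset ι)) (fun i => i ∈ D)
  have h4 : (Finset.univ.filter (fun i => i ∈ D)) = D := by ext; simp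
  rw [h4] at h3
  omega

/-- The basic compression estimate. -/
theorem fiber_count {α β μ γ : Type*} [Fintype α] [Fintype β] [Fintype μ] [DecidableEq γ]
    [DecidableEq α] [DecidableEq μ] [DecidableEq β]
    (M : α → β → μ) (δ : α → μ → Finset γ) (edges : β → Finset γ) (t C : ℕ)
    (hC : ∀ D : Finset γ, t ≤ D.card →
      (Finset.univ.filter (fun b => D ⊆ edges b)).card * 2 ^ t ≤ C) :
    (Finset.univ.filter (fun ab : α × β =>
        δ ab.1 (M ab.1 ab.2) ⊆ edges ab.2 ∧ t ≤ (δ ab.1 (M ab.1 ab.2)).card)).card * 2 ^ t
      ≤ Fintype.card α * Fintype.card μ * C := by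
  set S := Finset.univ.filter (fun ab : α × β =>
        δ ab.1 (M ab.1 ab.2) ⊆ edges ab.2 ∧ t ≤ (δ ab.1 (M ab.1 ab.2)).card) with hS
  have h1 : S.card = ∑ p ∈ (Finset.univ : Finset (α × μ)),
      (S.filter (fun ab => (ab.1, M ab.1 ab.2) = p)).card :=
    Finset.card_eq_sum_card_fiberwise (f := fun ab : α × β => (ab.1, M ab.1 ab.2))
      (t := Finset.univ) (fun _ _ => Finset.mem_coe.mpr (Finset.mem_univ _))
  rw [h1, Finset.sum_mul]
  have h2 : ∀ p ∈ (Finset.univ : Finset (α × μ)),
      (S.filter (fun ab => (ab.1, M ab.1 ab.2) = p)).card * 2 ^ t ≤ C := by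
    rintro ⟨a, m⟩ -
    by_cases ht : t ≤ (δ a m).card
    · refine le_trans ?_ (hC (δ a m) ht)
      apply Nat.mul_le_mul_right
      apply Finset.card_le_card_of_injOn (fun ab => ab.2)
      · rintro ⟨a', b⟩ hab
        simp only [Finset.coe_filter, Set.mem_ofPred_eq, hS, Finset.mem_filter, Finset.mem_univ,
          true_and, Prod.mk.injEq] at hab
        obtain ⟨⟨hab1, hab2⟩, rfl, hm⟩ := hab
        simp only [Finset.coe_filter, Finset.mem_univ, true_and, Set.mem_ofPred_eq]
        rw [← hm]; exact hab1
      · rintro ⟨a', b⟩ hab ⟨a'', b'⟩ hab' hb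
        simp only [Finset.coe_filter, Set.mem_ofPred_eq, Prod.mk.injEq] at hab hab'
        simp only at hb
        rw [Prod.mk.injEq]
        exact ⟨hab.2.1.trans hab'.2.1.symm, hb⟩
    · have h3 : S.filter (fun ab => (ab.1, M ab.1 ab.2) = (a, m)) = ∅ := by
        apply Finset.filter_eq_empty_iff.mpr
        rintro ⟨a', b⟩ hab heq
        simp only [hS, Finset.mem_filter, Finset.mem_univ, true_and] at hab
        simp only [Prod.mk.injEq] at heq
        obtain ⟨rfl, hm⟩ := heq
        rw [hm] at hab
        exact ht hab.2
      rw [h3]; simp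
  refine (Finset.sum_le_sum h2).trans ?_
  rw [Finset.sum_const, smul_eq_mul, Finset.card_univ, Fintype.card_prod]

/-- few coincidences imply many values -/
theorem card_image_add_pairs {ι β : Type*} [LinearOrder ι] [DecidableEq β] (g : ι → β)
    (s : Finset ι) :
    s.card ≤ (s.image g).card +
      ((s ×ˢ s).filter (fun q => q.1 < q.2 ∧ g q.1 = g q.2)).card := by
  induction s using Finset.induction_on_max with
  | empty => simp
  | insert a s hmax ih =>
    have ha : a ∉ s := fun h => lt_irrefl _ (hmax a h)
    rw [Finset.card_insert_of_notMem ha, Finset.image_insert]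
    have hsub : ((s ×ˢ s).filter (fun q => q.1 < q.2 ∧ g q.1 = g q.2)) ⊆
        ((insert a s ×ˢ insert a s).filter (fun q => q.1 < q.2 ∧ g q.1 = g q.2)) := by
      intro q hq
      simp only [Finset.mem_filter, Finset.mem_product, Finset.mem_insert] at hq ⊢
      exact ⟨⟨Or.inr hq.1.1, Or.inr hq.1.2⟩, hq.2⟩
    by_cases hg : g a ∈ s.image g
    · obtain ⟨j, hj, hjg⟩ := Finset.mem_image.mp hg
      rw [Finset.insert_eq_of_mem hg]
      have h5 : ((s ×ˢ s).filter (fun q => q.1 < q.2 ∧ g q.1 = g q.2)).card + 1 ≤
          ((insert a s ×ˢ insert a s).filter (fun q => q.1 < q.2 ∧ g q.1 = g q.2)).card := by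
        rw [← Finset.card_insert_of_notMem (a := (j, a)) (s := ((s ×ˢ s).filter (fun q => q.1 < q.2 ∧ g q.1 = g q.2)))]
        · apply Finset.card_le_card
          apply Finset.insert_subset
          · simp only [Finset.mem_filter, Finset.mem_product, Finset.mem_insert]
            exact ⟨⟨Or.inr hj, by simp⟩, hmax j hj, hjg⟩
          · exact hsub
        · simp only [Finset.mem_filter, Finset.mem_product, not_and]
          rintro ⟨_, h⟩
          exact absurd h ha
      omega
    · rw [Finset.card_insert_of_notMem hg]
      have := Finset.card_le_card hsub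
      omega

end Pool.Agent.Lib.MP_dcdb0f_lc
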