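import Mathlib
import Pool.Agent.Lib.MP_dcdb0f_lc.Comb

/-!
The hard instances, and the law of the random walk on them.
-/

open MeasureTheory

namespace Pool.Agent.Lib.MP_dcdb0f_lc

/-- core vertices: a side, an index and a bit -/
abbrev Vx (m : ℕ) := Bool × Fin m × Bool

/-- names of the edges leaving one side -/
abbrev E3 (m : ℕ) := Fin m × Bool × Fin m

def edgeOf {n m : ℕ} (e : Vx m ↪ Fin n) (s : Bool) (y : E3 m → Bool) (t : E3 m) :
    Fin n × Fin n := (e (s, t.1, t.2.1), e (!s, t.2.2, y t))

theorem edgeOf_injective {n m : ℕ} (e : Vx m ↪ Fin n) (s : Bool) (y : E3 m → Bool) :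
    Function.Injective (edgeOf e s y) := by
  rintro ⟨i, c, j⟩ ⟨i', c', j'⟩ h
  simp only [edgeOf, Prod.mk.injEq, EmbeddingLike.apply_eq_iff_eq, true_and] at h
  obtain ⟨⟨h1, h2⟩, h3, -⟩ := h
  subst h1 h2 h3
  rfl

def sideEdges {n m : ℕ} (e : Vx m ↪ Fin n) (s : Bool) (y : E3 m → Bool) :
    Finset (Fin n × Fin n) := Finset.univ.image (edgeOf e s y)

def dummyEdges {n m : ℕ} (e : Vx m ↪ Fin n) (base : Fin n) : Finset (Fin n × Fin n) :=
  (Finset.univ.filter (fun u => u ∉ Finset.univ.image e)).image (fun u => (u, base))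

def allEdges {n m : ℕ} (e : Vx m ↪ Fin n) (hm : 0 < m) (x : Bool → E3 m → Bool) :
    Finset (Fin n × Fin n) :=
  sideEdges e false (x false) ∪ sideEdges e true (x true) ∪
    dummyEdges e (e (false, ⟨0, hm⟩, false))

theorem mem_sideEdges {n m : ℕ} (e : Vx m ↪ Fin n) (s : Bool) (y : E3 m → Bool)
    (q : Fin n × Fin n) : q ∈ sideEdges e s y ↔ ∃ t, edgeOf e s y t = q := by
  simp [sideEdges]

theorem mem_dummyEdges {n m : ℕ} (e : Vx m ↪ Fin n) (base : Fin n) (q : Fin n × Fin n) :
    q ∈ dummyEdges e base ↔ (∀ v, e v ≠ q.1) ∧ q.2 = base := by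
  simp only [dummyEdges, Finset.mem_image, Finset.mem_filter, Finset.mem_univ, true_and,
    not_exists]
  constructor
  · rintro ⟨u, hu, rfl⟩; exact ⟨hu, rfl⟩
  · rintro ⟨h1, h2⟩; exact ⟨q.1, h1, by rw [← h2]⟩

theorem allEdges_core {n m : ℕ} (e : Vx m ↪ Fin n) (hm : 0 < m) (x : Bool → E3 m → Bool)
    (s : Bool) (i : Fin m) (c : Bool) (w : Fin n) :
    (e (s, i, c), w) ∈ allEdges e hm x ↔ ∃ j, e (!s, j, x s (i, c, j)) = w := by
  simp only [allEdges, Finset.mem_union, mem_sideEdges, mem_dummyEdges, edgeOf, Prod.mk.injEq,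
    EmbeddingLike.apply_eq_iff_eq]
  constructor
  · rintro ((⟨⟨i', c', j⟩, ⟨hs, h1, h2⟩, h3⟩ | ⟨⟨i', c', j⟩, ⟨hs, h1, h2⟩, h3⟩) | ⟨h, -⟩)
    · simp only at hs h1 h2 h3; subst hs h1 h2; exact ⟨j, h3⟩
    · simp only at hs h1 h2 h3; subst hs h1 h2; exact ⟨j, h3⟩
    · exact absurd rfl (h (s, i, c))
  · rintro ⟨j, hj⟩
    left
    cases s
    · left; exact ⟨(i, c, j), ⟨rfl, rfl, rfl⟩, hj⟩
    · right; exact ⟨(i, c, j), ⟨rfl, rfl, rfl⟩, hj⟩

theorem allEdges_dummy {n m : ℕ} (e : Vx m ↪ Fin n) (hm : 0 < m) (x : Bool → E3 m → Bool)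
    (u w : Fin n) (hu : ∀ v, e v ≠ u) :
    (u, w) ∈ allEdges e hm x ↔ w = e (false, ⟨0, hm⟩, false) := by
  simp only [allEdges, Finset.mem_union, mem_sideEdges, mem_dummyEdges, edgeOf, Prod.mk.injEq]
  constructor
  · rintro ((⟨t, h1, h2⟩ | ⟨t, h1, h2⟩) | ⟨-, h⟩)
    · exact absurd h1 (hu _)
    · exact absurd h1 (hu _)
    · exact h
  · intro h
    right; exact ⟨hu, h⟩

/-- the hard graphs -/
def hardGraph {n m : ℕ} (e : Vx m ↪ Fin n) (hm : 0 < m) (x : Bool → E3 m → Bool) :
    InputGraph n where
  out u := Finset.univ.filter (fun w => (u, w) ∈ allEdges e hm x)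
  out_nonempty u := by
    by_cases h : ∃ v, e v = u
    · obtain ⟨⟨s, i, c⟩, rfl⟩ := h
      refine ⟨e (!s, ⟨0, hm⟩, x s (i, c, ⟨0, hm⟩)), ?_⟩
      simp only [Finset.mem_filter, Finset.mem_univ, true_and, allEdges_core]
      exact ⟨_, rfl⟩
    · refine ⟨e (false, ⟨0, hm⟩, false), ?_⟩
      simp only [Finset.mem_filter, Finset.mem_univ, true_and]
      rw [allEdges_dummy e hm x _ _ (fun v hv => h ⟨v, hv⟩)]
  loopless u := by
    simp only [Finset.mem_filter, Finset.mem_univ, true_and]
    by_cases h : ∃ v, e v = u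
    · obtain ⟨⟨s, i, c⟩, rfl⟩ := h
      rw [allEdges_core]
      rintro ⟨j, hj⟩
      simp only [EmbeddingLike.apply_eq_iff_eq, Prod.mk.injEq] at hj
      exact absurd hj.1 (by cases s <;> simp)
    · rw [allEdges_dummy e hm x _ _ (fun v hv => h ⟨v, hv⟩)]
      intro hu
      exact h ⟨_, hu.symm⟩

theorem mem_out {n m : ℕ} (e : Vx m ↪ Fin n) (hm : 0 < m) (x : Bool → E3 m → Bool)
    (u w : Fin n) : w ∈ (hardGraph e hm x).out u ↔ (u, w) ∈ allEdges e hm x := by
  simp [hardGraph]

theorem out_core {n m : ℕ} (e : Vx m ↪ Fin n) (hm : 0 < m) (x : Bool → E3 m → Bool)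
    (s : Bool) (i : Fin m) (c : Bool) :
    (hardGraph e hm x).out (e (s, i, c)) =
      Finset.univ.image (fun j => e (!s, j, x s (i, c, j))) := by
  ext w
  rw [mem_out, allEdges_core]
  simp

/-- one step of the walk -/
def next {m : ℕ} (x : Bool → E3 m → Bool) (v : Vx m) (j : Fin m) : Vx m :=
  (!v.1, j, x v.1 (v.2.1, v.2.2, j))

/-- the walk following a list of indices -/
def walkOf {m : ℕ} (x : Bool → E3 m → Bool) : Vx m → List (Fin m) → List (Vx m)
  | v, [] => [v]
  | v, j :: js => v :: walkOf x (next x v j) js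

theorem out_core' {n m : ℕ} (e : Vx m ↪ Fin n) (hm : 0 < m) (x : Bool → E3 m → Bool)
    (v : Vx m) : (hardGraph e hm x).out (e v) =
      Finset.univ.image (fun j => e (next x v j)) := by
  obtain ⟨s, i, c⟩ := v
  exact out_core e hm x s i c

theorem next_injective {n m : ℕ} (e : Vx m ↪ Fin n) (x : Bool → E3 m → Bool)
    (v : Vx m) : Function.Injective (fun j => e (next x v j)) := by
  intro j j' h
  simp only [next, EmbeddingLike.apply_eq_iff_eq, Prod.mk.injEq, true_and] at h
  exact h.1

open Classical in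
/-- the walk on a hard graph is driven by a uniformly random sequence of indices -/
theorem walkLaw_eq {n m : ℕ} (e : Vx m ↪ Fin n) (hm : 0 < m) (x : Bool → E3 m → Bool) :
    ∀ (l : ℕ) (v : Vx m) (E : Set (List (Fin n))),
      (walkLaw (hardGraph e hm x) l (e v)).toOuterMeasure E =
        ((Finset.univ.filter (fun f : Fin l → Fin m =>
          (walkOf x v (List.ofFn f)).map e ∈ E)).card : ENNReal) / (m : ENNReal) ^ l := by
  intro l
  induction l with
  | zero =>
    intro v E
    simp only [walkLaw, PMF.toOuterMeasure_pure_apply, List.ofFn_zero, walkOf, List.map_cons,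
      List.map_nil, pow_zero, div_one]
    split_ifs with h
    · simp [h]
    · simp [h]
  | succ l ih =>
    intro v E
    simp only [walkLaw, PMF.toOuterMeasure_bind_apply, PMF.toOuterMeasure_map_apply]
    rw [tsum_fintype]
    have h1 : ∀ w, (PMF.uniformOfFinset ((hardGraph e hm x).out (e v))
        ((hardGraph e hm x).out_nonempty (e v))) w =
        if w ∈ (hardGraph e hm x).out (e v) then (m : ENNReal)⁻¹ else 0 := by
      intro w
      rw [PMF.uniformOfFinset_apply]
      have : ((hardGraph e hm x).out (e v)).card = m := by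
        rw [out_core', Finset.card_image_of_injective _ (next_injective e x v), Finset.card_univ,
          Fintype.card_fin]
      rw [this]
      split_ifs <;> rfl
    simp only [h1, ite_mul, zero_mul]
    rw [← Finset.sum_filter]
    have h2 : (Finset.univ.filter (fun w => w ∈ (hardGraph e hm x).out (e v))) =
        Finset.univ.image (fun j => e (next x v j)) := by
      ext w
      simp only [Finset.mem_filter, Finset.mem_univ, true_and, out_core']
    rw [h2, Finset.sum_image (fun a _ b _ h => next_injective e x v h)]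
    simp only [ih]
    -- count sequences by their first entry
    have h3 : (Finset.univ.filter (fun f : Fin (l + 1) → Fin m =>
          (walkOf x v (List.ofFn f)).map e ∈ E)).card =
        ∑ j : Fin m, (Finset.univ.filter (fun f : Fin l → Fin m =>
          (walkOf x (next x v j) (List.ofFn f)).map e ∈ (List.cons (e v) ⁻¹' E))).card := by
      rw [Finset.card_eq_sum_card_fiberwise (f := fun f : Fin (l + 1) → Fin m => f 0)
        (t := Finset.univ) (fun _ _ => Finset.mem_coe.mpr (Finset.mem_univ _))]
      apply Finset.sum_congr rfl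
      intro j _
      refine Finset.card_bij' (fun f _ => Fin.tail f) (fun f _ => Fin.cons j f) ?_ ?_ ?_ ?_
      · intro f hf
        simp only [Finset.mem_filter, Finset.mem_univ, true_and] at hf ⊢
        obtain ⟨hf1, hf2⟩ := hf
        rw [List.ofFn_succ, walkOf, List.map_cons, hf2] at hf1
        exact hf1
      · intro f hf
        simp only [Finset.mem_filter, Finset.mem_univ, true_and] at hf ⊢
        refine ⟨?_, by simp⟩
        rw [List.ofFn_succ, walkOf, List.map_cons]
        simpa using hf
      · intro f hf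
        simp only [Finset.mem_filter, Finset.mem_univ, true_and] at hf
        rw [← hf.2]
        exact Fin.cons_self_tail f
      · intro f hf
        simp
    rw [h3]
    push_cast
    rw [← Finset.mul_sum, ENNReal.div_eq_inv_mul, pow_succ, ENNReal.mul_inv]
    · rw [mul_comm ((m : ENNReal) ^ l)⁻¹, mul_assoc]
      congr 1
      rw [Finset.mul_sum]
      apply Finset.sum_congr rfl
      intro j _
      rw [ENNReal.div_eq_inv_mul]
    · left; simp [hm.ne']
    · left; simp

/-- the index of a vertex -/
def idx {m : ℕ} (v : Vx m) : Fin m := v.2.1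

theorem walkOf_map_idx {m : ℕ} (x : Bool → E3 m → Bool) :
    ∀ (js : List (Fin m)) (v : Vx m), (walkOf x v js).map idx = idx v :: js
  | [], v => rfl
  | j :: js, v => by
    rw [walkOf, List.map_cons, walkOf_map_idx x js]
    rfl

theorem length_walkOf {m : ℕ} (x : Bool → E3 m → Bool) (js : List (Fin m)) (v : Vx m) :
    (walkOf x v js).length = js.length + 1 := by
  have := congrArg List.length (walkOf_map_idx x js v)
  simpa using this

theorem walkOf_head {m : ℕ} (x : Bool → E3 m → Bool) (v : Vx m) (js : List (Fin m)) :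
    ∃ t, walkOf x v js = v :: t := by
  cases js with
  | nil => exact ⟨[], rfl⟩
  | cons j js => exact ⟨_, rfl⟩

theorem trans_walkOf {n m : ℕ} (e : Vx m ↪ Fin n) (x : Bool → E3 m → Bool) :
    ∀ (js : List (Fin m)) (v : Vx m), ∀ q ∈ trans ((walkOf x v js).map e),
      q ∈ sideEdges e false (x false) ∪ sideEdges e true (x true)
  | [], v => by simp [walkOf]
  | j :: js, v => by
    intro q hq
    rw [walkOf] at hq
    obtain ⟨t, ht⟩ := walkOf_head x (next x v j) js
    have ih := trans_walkOf e x js (next x v j)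
    rw [ht] at hq ih
    simp only [List.map_cons, trans_cons_cons, List.mem_cons] at hq ih
    rcases hq with rfl | hq
    · obtain ⟨s, i, c⟩ := v
      cases s
      · apply Finset.mem_union_left
        rw [mem_sideEdges]
        exact ⟨(i, c, j), rfl⟩
      · apply Finset.mem_union_right
        rw [mem_sideEdges]
        exact ⟨(i, c, j), rfl⟩
    · exact ih q hq

/-- distinct bigrams of indices give distinct edges of the walk -/
theorem card_trans_walkOf {n m : ℕ} (e : Vx m ↪ Fin n) (x : Bool → E3 m → Bool)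
    (js : List (Fin m)) (v : Vx m) :
    (trans js).toFinset.card ≤ (trans ((walkOf x v js).map e)).toFinset.card := by
  have h0 : ((trans (walkOf x v js)).toFinset).card =
      (trans ((walkOf x v js).map e)).toFinset.card := by
    have h3 : (trans ((walkOf x v js).map e)).toFinset =
        (trans (walkOf x v js)).toFinset.image (Prod.map e e) := by
      ext q
      rw [trans_map, List.mem_toFinset, List.mem_map, Finset.mem_image]
      simp only [List.mem_toFinset]
    rw [h3, Finset.card_image_of_injective]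
    exact Function.Injective.prodMap e.injective e.injective
  rw [← h0]
  have h1 : (trans js).toFinset ⊆ (trans (walkOf x v js)).toFinset.image (Prod.map idx idx) := by
    have h2 : trans (idx v :: js) = (trans (walkOf x v js)).map (Prod.map idx idx) := by
      rw [← walkOf_map_idx x js v, trans_map]
    intro q hq
    rw [List.mem_toFinset] at hq
    have h3 : q ∈ trans (idx v :: js) := by
      cases js with
      | nil => simp at hq
      | cons j js =>
        rw [trans_cons_cons]
        exact List.mem_cons_of_mem _ hq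
    rw [h2, List.mem_map] at h3
    obtain ⟨a, ha, rfl⟩ := h3
    exact Finset.mem_image.mpr ⟨a, List.mem_toFinset.mpr ha, rfl⟩
  exact (Finset.card_le_card h1).trans Finset.card_image_le

end Pool.Agent.Lib.MP_dcdb0f_lc
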