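import Mathlib
import Pool.Agent.Lib.MP_dcdb0f_lc.Graph

/-!
The random walk on a hard graph rarely repeats an edge.
-/

open MeasureTheory

namespace Pool.Agent.Lib.MP_dcdb0f_lc

theorem pair_count {m l : ℕ} (j k : Fin l) (hjk : j < k) :
    (Finset.univ.filter (fun f : Fin (l + 1) → Fin m =>
      f j.castSucc = f k.castSucc ∧ f j.succ = f k.succ)).card * m ^ 2 ≤ m ^ (l + 1) := by
  set S := Finset.univ.filter (fun f : Fin (l + 1) → Fin m =>
      f j.castSucc = f k.castSucc ∧ f j.succ = f k.succ) with hS
  have hbd : k.castSucc ≠ k.succ := by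
    intro h; have := congrArg Fin.val h; simp at this
  have hab : j.castSucc ≠ k.castSucc := by
    intro h; have := congrArg Fin.val h; simp at this; omega
  have had : j.castSucc ≠ k.succ := by
    intro h; have := congrArg Fin.val h; simp at this; omega
  have hcd : j.succ ≠ k.succ := by
    intro h; have := congrArg Fin.val h; simp at this; omega
  have h1 : (S ×ˢ (Finset.univ : Finset (Fin m × Fin m))).card ≤
      (Finset.univ : Finset (Fin (l + 1) → Fin m)).card := by
    apply Finset.card_le_card_of_injOn (fun q =>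
      Function.update (Function.update q.1 k.castSucc q.2.1) k.succ q.2.2)
    · intro q _; exact Finset.mem_coe.mpr (Finset.mem_univ _)
    · rintro ⟨f, y, z⟩ hf ⟨f', y', z'⟩ hf' h
      simp only [Finset.coe_product, Finset.coe_univ, Set.mem_prod, Finset.mem_coe, Set.mem_univ,
        and_true, hS, Finset.mem_filter, Finset.mem_univ, true_and] at hf hf'
      simp only at h
      have hz : z = z' := by
        have := congrFun h k.succ
        simpa using this
      have hy : y = y' := by
        have := congrFun h k.castSucc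
        simpa [Function.update_of_ne hbd] using this
      have hother : ∀ t, t ≠ k.castSucc → t ≠ k.succ → f t = f' t := by
        intro t ht1 ht2
        have := congrFun h t
        simpa [Function.update_of_ne ht1, Function.update_of_ne ht2] using this
      have hb : f k.castSucc = f' k.castSucc := by
        rw [← hf.1, ← hf'.1]; exact hother _ hab had
      have hd : f k.succ = f' k.succ := by
        rw [← hf.2, ← hf'.2]
        by_cases hc : j.succ = k.castSucc
        · rw [hc]; exact hb
        · exact hother _ hc hcd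
      have hff : f = f' := by
        funext t
        by_cases ht1 : t = k.castSucc
        · rw [ht1]; exact hb
        · by_cases ht2 : t = k.succ
          · rw [ht2]; exact hd
          · exact hother t ht1 ht2
      rw [hff, hy, hz]
  rw [Finset.card_product, Finset.card_univ, Finset.card_univ] at h1
  simpa [sq] using h1

/-- number of coincidences among the first `k` bigrams of `f` -/
def numPairs {m l : ℕ} (k : ℕ) (f : Fin (l + 1) → Fin m) : ℕ :=
  ((Finset.univ : Finset (Fin l × Fin l)).filter (fun q =>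
    (q.1 < q.2 ∧ q.2.val < k) ∧
      (f q.1.castSucc = f q.2.castSucc ∧ f q.1.succ = f q.2.succ))).card

theorem two_mul_card_lt (l k : ℕ) :
    2 * ((Finset.univ : Finset (Fin l × Fin l)).filter (fun q => q.1 < q.2 ∧ q.2.val < k)).card
      ≤ k ^ 2 := by
  have h1 : ((Finset.univ : Finset (Fin l × Fin l)).filter
        (fun q => q.1 < q.2 ∧ q.2.val < k)).card =
      ((Finset.univ : Finset (Fin l × Fin l)).filter (fun q => q.2 < q.1 ∧ q.1.val < k)).card := by
    apply Finset.card_bij (fun q _ => (q.2, q.1))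
    · intro q hq; simpa using hq
    · rintro ⟨a, b⟩ _ ⟨c, d⟩ _ h; simp only [Prod.mk.injEq] at h ⊢; exact ⟨h.2, h.1⟩
    · rintro ⟨a, b⟩ h; exact ⟨(b, a), by simpa using h, rfl⟩
  have h2 : Disjoint ((Finset.univ : Finset (Fin l × Fin l)).filter
        (fun q => q.1 < q.2 ∧ q.2.val < k))
      ((Finset.univ : Finset (Fin l × Fin l)).filter (fun q => q.2 < q.1 ∧ q.1.val < k)) := by
    rw [Finset.disjoint_filter]
    intro q _ h h'; exact absurd (h.1.trans h'.1) (lt_irrefl _)
  have h3 := Finset.card_union_of_disjoint h2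
  have h4 : (((Finset.univ : Finset (Fin l × Fin l)).filter
        (fun q => q.1 < q.2 ∧ q.2.val < k)) ∪
      ((Finset.univ : Finset (Fin l × Fin l)).filter (fun q => q.2 < q.1 ∧ q.1.val < k))).card ≤
      (Finset.range k ×ˢ Finset.range k).card := by
    apply Finset.card_le_card_of_injOn (fun q => (q.1.val, q.2.val))
    · intro q hq
      simp only [Finset.coe_union, Finset.coe_filter, Finset.mem_univ, true_and, Set.mem_union,
        Set.mem_ofPred_eq] at hq
      simp only [Finset.coe_product, Set.mem_prod, Finset.coe_range, Set.mem_Iio]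
      omega
    · rintro ⟨a, b⟩ _ ⟨c, d⟩ _ h
      simp only [Prod.mk.injEq] at h ⊢
      exact ⟨Fin.ext h.1, Fin.ext h.2⟩
  rw [Finset.card_product, Finset.card_range] at h4
  nlinarith

theorem sum_numPairs (m l k : ℕ) :
    2 * (∑ f : Fin (l + 1) → Fin m, numPairs k f) * m ^ 2 ≤ k ^ 2 * m ^ (l + 1) := by
  have h1 : (∑ f : Fin (l + 1) → Fin m, numPairs k f) =
      ∑ q ∈ (Finset.univ : Finset (Fin l × Fin l)).filter (fun q => q.1 < q.2 ∧ q.2.val < k),
        (Finset.univ.filter (fun f : Fin (l + 1) → Fin m =>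
          f q.1.castSucc = f q.2.castSucc ∧ f q.1.succ = f q.2.succ)).card := by
    simp only [numPairs, Finset.card_filter]
    rw [Finset.sum_comm, Finset.sum_filter]
    apply Finset.sum_congr rfl
    intro q _
    by_cases hq : q.1 < q.2 ∧ q.2.val < k
    · simp [hq]
    · simp only [hq, false_and, if_false, Finset.sum_const_zero]
  rw [h1, mul_assoc, Finset.sum_mul]
  have h2 : ∑ q ∈ (Finset.univ : Finset (Fin l × Fin l)).filter
        (fun q => q.1 < q.2 ∧ q.2.val < k),
        (Finset.univ.filter (fun f : Fin (l + 1) → Fin m =>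
          f q.1.castSucc = f q.2.castSucc ∧ f q.1.succ = f q.2.succ)).card * m ^ 2 ≤
      ∑ q ∈ (Finset.univ : Finset (Fin l × Fin l)).filter (fun q => q.1 < q.2 ∧ q.2.val < k),
        m ^ (l + 1) := by
    apply Finset.sum_le_sum
    intro q hq
    exact pair_count q.1 q.2 (Finset.mem_filter.mp hq).2.1
  rw [Finset.sum_const, smul_eq_mul] at h2
  have h3 := two_mul_card_lt l k
  calc _ ≤ 2 * (((Finset.univ : Finset (Fin l × Fin l)).filter
          (fun q => q.1 < q.2 ∧ q.2.val < k)).card * m ^ (l + 1)) := Nat.mul_le_mul_left _ h2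
    _ = (2 * ((Finset.univ : Finset (Fin l × Fin l)).filter
          (fun q => q.1 < q.2 ∧ q.2.val < k)).card) * m ^ (l + 1) := by ring
    _ ≤ _ := Nat.mul_le_mul_right _ h3

theorem bad_count (m l k : ℕ) (h : 24 * (k + 1) ≤ m ^ 2) :
    6 * (Finset.univ.filter (fun f : Fin (l + 1) → Fin m => k + 1 < 8 * numPairs k f)).card
      ≤ m ^ (l + 1) := by
  set B := Finset.univ.filter (fun f : Fin (l + 1) → Fin m => k + 1 < 8 * numPairs k f) with hB
  have h1 : B.card * (k + 2) ≤ 8 * ∑ f : Fin (l + 1) → Fin m, numPairs k f := by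
    calc B.card * (k + 2) = ∑ f ∈ B, (k + 2) := by rw [Finset.sum_const, smul_eq_mul]
      _ ≤ ∑ f ∈ B, 8 * numPairs k f := by
          apply Finset.sum_le_sum
          intro f hf
          have := (Finset.mem_filter.mp hf).2
          omega
      _ ≤ ∑ f : Fin (l + 1) → Fin m, 8 * numPairs k f :=
          Finset.sum_le_sum_of_subset (Finset.filter_subset _ _)
      _ = _ := by rw [Finset.mul_sum]
  have h2 := sum_numPairs m l k
  have h3 : B.card * (k + 2) * m ^ 2 ≤ 4 * (k ^ 2 * m ^ (l + 1)) := by
    calc B.card * (k + 2) * m ^ 2 ≤ (8 * ∑ f : Fin (l + 1) → Fin m, numPairs k f) * m ^ 2 :=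
          Nat.mul_le_mul_right _ h1
      _ = 4 * (2 * (∑ f : Fin (l + 1) → Fin m, numPairs k f) * m ^ 2) := by ring
      _ ≤ _ := Nat.mul_le_mul_left _ h2
  have h4 : B.card * (k + 2) * (24 * (k + 1)) ≤ 4 * (k ^ 2 * m ^ (l + 1)) :=
    (Nat.mul_le_mul_left _ h).trans h3
  have h5 : (6 * B.card) * (4 * ((k + 1) * (k + 2))) ≤ m ^ (l + 1) * (4 * ((k + 1) * (k + 2))) := by
    have h6 : k ^ 2 * m ^ (l + 1) ≤ (k + 1) * (k + 2) * m ^ (l + 1) :=
      Nat.mul_le_mul_right _ (by nlinarith)
    nlinarith
  exact Nat.le_of_mul_le_mul_right h5 (by positivity)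

theorem trans_ofFn {β : Type*} {l : ℕ} (f : Fin (l + 1) → β) :
    trans (List.ofFn f) = List.ofFn (fun k : Fin l => (f k.castSucc, f k.succ)) := by
  apply List.ext_getElem
  · simp [length_trans]
  · intro i h1 h2
    simp only [trans, List.getElem_zip, List.getElem_tail, List.getElem_ofFn]
    rfl

theorem card_bigrams {m l : ℕ} (k : ℕ) (hk : k ≤ l) (f : Fin (l + 1) → Fin m) :
    k ≤ (trans ((List.ofFn f).take (k + 1))).toFinset.card + numPairs k f := by
  have h0 : trans ((List.ofFn f).take (k + 1)) =
      (List.ofFn (fun k : Fin l => (f k.castSucc, f k.succ))).take k := by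
    rw [← trans_ofFn]
    apply List.ext_getElem
    · simp only [length_trans, List.length_take, List.length_ofFn]
      omega
    · intro i h1 h2
      simp only [trans, List.getElem_zip, List.getElem_tail, List.getElem_take]
  rw [h0]
  have h1 := card_image_add_pairs (fun k : Fin l => (f k.castSucc, f k.succ))
    (Finset.univ.filter (fun i : Fin l => i.val < k))
  have h2 : (Finset.univ.filter (fun i : Fin l => i.val < k)).image
      (fun k : Fin l => (f k.castSucc, f k.succ)) ⊆
      ((List.ofFn (fun k : Fin l => (f k.castSucc, f k.succ))).take k).toFinset := by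
    intro q hq
    obtain ⟨i, hi, rfl⟩ := Finset.mem_image.mp hq
    have hi' := (Finset.mem_filter.mp hi).2
    rw [List.mem_toFinset, List.mem_take_iff_getElem]
    refine ⟨i.val, ?_, ?_⟩
    · simp [hi']
    · simp
  have h3 : (((Finset.univ.filter (fun i : Fin l => i.val < k)) ×ˢ
      (Finset.univ.filter (fun i : Fin l => i.val < k))).filter
      (fun q => q.1 < q.2 ∧ (f q.1.castSucc, f q.1.succ) =
        (f q.2.castSucc, f q.2.succ))).card ≤ numPairs k f := by
    apply Finset.card_le_card
    intro q hq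
    simp only [Finset.mem_filter, Finset.mem_product, Finset.mem_univ, true_and,
      Prod.mk.injEq] at hq ⊢
    exact ⟨⟨hq.2.1, hq.1.2⟩, hq.2.2⟩
  have h4 : (Finset.univ.filter (fun i : Fin l => i.val < k)).card = k := by
    rw [Fin.card_filter_val_lt, min_eq_right hk]
  have h5 := Finset.card_le_card h2
  beta_reduce at h1
  omega

/-- The good event for a graph: a path of the graph of length `l` with few repeated edges
among its first `k` ones. -/
def goodSet {n m : ℕ} (e : Vx m ↪ Fin n) (x : Bool → E3 m → Bool) (l k : ℕ) :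
    Set (List (Fin n)) :=
  {L | L.length = l + 1 ∧
    (∀ q ∈ trans L, q ∈ sideEdges e false (x false) ∪ sideEdges e true (x true)) ∧
    8 * k ≤ 8 * (trans (L.take (k + 1))).toFinset.card + k + 8}

theorem take_walkOf {m : ℕ} (x : Bool → E3 m → Bool) :
    ∀ (js : List (Fin m)) (v : Vx m) (k : ℕ),
      (walkOf x v js).take (k + 1) = walkOf x v (js.take k)
  | [], v, k => by simp [walkOf]
  | j :: js, v, 0 => by simp [walkOf]
  | j :: js, v, k + 1 => by
    rw [walkOf, List.take_succ_cons, take_walkOf x js, List.take_succ_cons, walkOf]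

theorem walkLaw_goodSet {n m : ℕ} (e : Vx m ↪ Fin n) (hm : 0 < m) (x : Bool → E3 m → Bool)
    (l k : ℕ) (hk : k ≤ l) (v : Vx m) (h : 24 * (k + 1) ≤ m ^ 2) :
    5 / 6 ≤ ((walkLaw (hardGraph e hm x) (l + 1) (e v)).toOuterMeasure
      (goodSet e x (l + 1) (k + 1))).toReal := by
  classical
  rw [walkLaw_eq]
  set Gd := Finset.univ.filter (fun f : Fin (l + 1) → Fin m =>
          (walkOf x v (List.ofFn f)).map e ∈ goodSet e x (l + 1) (k + 1)) with hG
  set B := Finset.univ.filter (fun f : Fin (l + 1) → Fin m => k + 1 < 8 * numPairs k f) with hB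
  have h1 : (Finset.univ : Finset (Fin (l + 1) → Fin m)) ⊆ Gd ∪ B := by
    intro f _
    by_cases hf : k + 1 < 8 * numPairs k f
    · exact Finset.mem_union_right _ (Finset.mem_filter.mpr ⟨Finset.mem_univ _, hf⟩)
    · apply Finset.mem_union_left
      refine Finset.mem_filter.mpr ⟨Finset.mem_univ _, ?_, ?_, ?_⟩
      · simp [length_walkOf]
      · exact trans_walkOf e x _ v
      · have h2 := card_bigrams k hk f
        have h3 := card_trans_walkOf e x ((List.ofFn f).take (k + 1)) v
        rw [← take_walkOf, List.map_take] at h3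
        omega
  have h2 : m ^ (l + 1) ≤ Gd.card + B.card := by
    have h3 := (Finset.card_le_card h1).trans (Finset.card_union_le _ _)
    simpa using h3
  have h3 : 6 * B.card ≤ m ^ (l + 1) := bad_count m l k h
  have h4 : 5 * m ^ (l + 1) ≤ 6 * Gd.card := by omega
  rw [ENNReal.toReal_div]
  simp only [ENNReal.toReal_natCast, ENNReal.toReal_pow]
  have hmr : (0 : ℝ) < (m : ℝ) ^ (l + 1) := by positivity
  rw [div_le_div_iff₀ (by norm_num) hmr]
  have h5 : (5 : ℝ) * (m : ℝ) ^ (l + 1) ≤ 6 * (Gd.card : ℝ) := by exact_mod_cast h4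
  linarith

end Pool.Agent.Lib.MP_dcdb0f_lc
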