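import Mathlib
import Pool.Agent.Lib.MP_dcdb0f_lc.Walk

/-!
The lower bound: passes times space is at least of the order of the length of the walk.
-/

open MeasureTheory

namespace Pool.Agent.Lib.MP_dcdb0f_lc

/-- Number of ways a set of potential edges can be present. -/
theorem subset_count {n m : ℕ} (e : Vx m ↪ Fin n) (s : Bool) (D : Finset (Fin n × Fin n))
    (t : ℕ) (ht : t ≤ D.card) :
    (Finset.univ.filter (fun y : E3 m → Bool => D ⊆ sideEdges e s y)).card * 2 ^ t ≤
      2 ^ Fintype.card (E3 m) := by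
  rcases Finset.eq_empty_or_nonempty
    (Finset.univ.filter (fun y : E3 m → Bool => D ⊆ sideEdges e s y)) with h0 | ⟨y₀, hy₀⟩
  · rw [h0]; simp
  · have hy₀' : D ⊆ sideEdges e s y₀ := (Finset.mem_filter.mp hy₀).2
    set D' := Finset.univ.filter (fun τ : E3 m => edgeOf e s y₀ τ ∈ D) with hD'
    have h1 : D = D'.image (edgeOf e s y₀) := by
      ext q
      constructor
      · intro hq
        obtain ⟨τ, hτ⟩ := (mem_sideEdges e s y₀ q).mp (hy₀' hq)
        refine Finset.mem_image.mpr ⟨τ, ?_, hτ⟩
        refine Finset.mem_filter.mpr ⟨Finset.mem_univ _, ?_⟩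
        rw [hτ]; exact hq
      · intro hq
        obtain ⟨τ, hτ, rfl⟩ := Finset.mem_image.mp hq
        exact (Finset.mem_filter.mp hτ).2
    have h2 : D'.card = D.card := by
      conv_rhs => rw [h1]
      rw [Finset.card_image_of_injective _ (edgeOf_injective e s y₀)]
    have h3 : (Finset.univ.filter (fun y : E3 m → Bool => D ⊆ sideEdges e s y)) ⊆
        (Finset.univ.filter (fun y : E3 m → Bool => ∀ τ ∈ D', y τ = y₀ τ)) := by
      intro y hy
      refine Finset.mem_filter.mpr ⟨Finset.mem_univ _, ?_⟩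
      intro τ hτ
      have h4 : edgeOf e s y₀ τ ∈ sideEdges e s y :=
        (Finset.mem_filter.mp hy).2 (Finset.mem_filter.mp hτ).2
      obtain ⟨τ', hτ'⟩ := (mem_sideEdges e s y _).mp h4
      obtain ⟨i, c, j⟩ := τ
      obtain ⟨i', c', j'⟩ := τ'
      simp only [edgeOf, Prod.mk.injEq, EmbeddingLike.apply_eq_iff_eq, true_and] at hτ'
      obtain ⟨⟨h5, h6⟩, h7, h8⟩ := hτ'
      subst h5 h6 h7
      exact h8
    calc _ ≤ (Finset.univ.filter (fun y : E3 m → Bool => ∀ τ ∈ D', y τ = y₀ τ)).card *
          2 ^ D'.card := by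
            apply Nat.mul_le_mul (Finset.card_le_card h3)
            exact Nat.pow_le_pow_right (by norm_num) (by omega)
      _ = _ := card_agree y₀ D'

/-- a choice of bits for both sides -/
def bits {m : ℕ} (a b : E3 m → Bool) : Bool → E3 m → Bool := fun s => cond s b a

noncomputable def sA {n m : ℕ} (e : Vx m ↪ Fin n) (a : E3 m → Bool) : List (Fin n × Fin n) :=
  (Finset.univ : Finset (E3 m)).toList.map (edgeOf e false a)

noncomputable def sB {n m : ℕ} (e : Vx m ↪ Fin n) (hm : 0 < m) (b : E3 m → Bool) :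
    List (Fin n × Fin n) :=
  (Finset.univ : Finset (E3 m)).toList.map (edgeOf e true b) ++
    (dummyEdges e (e (false, ⟨0, hm⟩, false))).toList

theorem length_sA {n m : ℕ} (e : Vx m ↪ Fin n) (a : E3 m → Bool) :
    (sA e a).length = Fintype.card (E3 m) := by
  simp [sA]

theorem mem_sA {n m : ℕ} (e : Vx m ↪ Fin n) (a : E3 m → Bool) (q : Fin n × Fin n) :
    q ∈ sA e a ↔ q ∈ sideEdges e false a := by
  simp [sA, mem_sideEdges]

theorem mem_sB {n m : ℕ} (e : Vx m ↪ Fin n) (hm : 0 < m) (b : E3 m → Bool)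
    (q : Fin n × Fin n) :
    q ∈ sB e hm b ↔ q ∈ sideEdges e true b ∪ dummyEdges e (e (false, ⟨0, hm⟩, false)) := by
  simp [sB, mem_sideEdges]

theorem sideEdges_src {n m : ℕ} (e : Vx m ↪ Fin n) (s : Bool) (y : E3 m → Bool)
    (q : Fin n × Fin n) (h : q ∈ sideEdges e s y) :
    (∃ i c, q.1 = e (s, i, c)) ∧ (∃ i c, q.2 = e (!s, i, c)) := by
  obtain ⟨⟨i, c, j⟩, rfl⟩ := (mem_sideEdges e s y q).mp h
  exact ⟨⟨i, c, rfl⟩, ⟨j, _, rfl⟩⟩

theorem isStream {n m : ℕ} (e : Vx m ↪ Fin n) (hm : 0 < m) (a b : E3 m → Bool) :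
    IsStream (hardGraph e hm (bits a b)) (sA e a ++ sB e hm b) := by
  constructor
  · rw [List.nodup_append]
    refine ⟨?_, ?_, ?_⟩
    · exact (Finset.nodup_toList _).map (edgeOf_injective e false a)
    · rw [sB, List.nodup_append]
      refine ⟨(Finset.nodup_toList _).map (edgeOf_injective e true b), Finset.nodup_toList _, ?_⟩
      intro q hq q' hq' hqq
      subst hqq
      rw [List.mem_map] at hq
      obtain ⟨τ, -, rfl⟩ := hq
      rw [Finset.mem_toList, mem_dummyEdges] at hq'
      exact hq'.1 _ rfl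
    · intro q hq q' hq' hqq
      subst hqq
      rw [mem_sA] at hq
      rw [mem_sB, Finset.mem_union] at hq'
      obtain ⟨⟨i, c, h1⟩, -⟩ := sideEdges_src e _ _ _ hq
      rcases hq' with hq' | hq'
      · obtain ⟨⟨i', c', h2⟩, -⟩ := sideEdges_src e _ _ _ hq'
        rw [h1] at h2
        simp at h2
      · rw [mem_dummyEdges] at hq'
        exact hq'.1 _ h1.symm
  · intro u v
    rw [List.mem_append, mem_sA, mem_sB, mem_out, allEdges]
    simp only [bits, cond_true, cond_false, Finset.mem_union, or_assoc]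

/-- vertices of one side -/
def sideVerts {n m : ℕ} (e : Vx m ↪ Fin n) (s : Bool) : Finset (Fin n) :=
  Finset.univ.image (fun t : Fin m × Bool => e (s, t.1, t.2))

theorem src_mem {n m : ℕ} (e : Vx m ↪ Fin n) (s : Bool) (y : E3 m → Bool)
    (q : Fin n × Fin n) (h : q ∈ sideEdges e s y) : q.1 ∈ sideVerts e s := by
  obtain ⟨⟨i, c, h1⟩, -⟩ := sideEdges_src e _ _ _ h
  exact Finset.mem_image.mpr ⟨(i, c), Finset.mem_univ _, h1.symm⟩

theorem src_not_mem {n m : ℕ} (e : Vx m ↪ Fin n) (s : Bool) (y : E3 m → Bool)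
    (q : Fin n × Fin n) (h : q ∈ sideEdges e s y) : q.1 ∉ sideVerts e (!s) := by
  obtain ⟨⟨i, c, h1⟩, -⟩ := sideEdges_src e _ _ _ h
  intro h2
  obtain ⟨⟨i', c'⟩, -, h3⟩ := Finset.mem_image.mp h2
  rw [h1] at h3
  simp only [EmbeddingLike.apply_eq_iff_eq, Prod.mk.injEq] at h3
  exact absurd h3.1 (by cases s <;> simp)

theorem next_side {n m : ℕ} (e : Vx m ↪ Fin n) (s : Bool) (y y' : E3 m → Bool)
    (u v w : Fin n) (h : (u, v) ∈ sideEdges e s y) (h' : (v, w) ∈ sideEdges e s y') : False := by
  obtain ⟨-, ⟨i, c, h1⟩⟩ := sideEdges_src e _ _ _ h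
  obtain ⟨⟨i', c', h2⟩, -⟩ := sideEdges_src e _ _ _ h'
  simp only at h1 h2
  rw [h1] at h2
  simp only [EmbeddingLike.apply_eq_iff_eq, Prod.mk.injEq] at h2
  exact absurd h2.1 (by cases s <;> simp)

section machine

variable {n m s : ℕ} {Ω : Type*} (A : StreamAlg n s Ω) (ω : Ω) (e : Vx m ↪ Fin n) (hm : 0 < m)

/-- what is written during the first part of pass `j` -/
noncomputable def outA (j : ℕ) (q : Fin s → Bool) (a : E3 m → Bool) : List (Fin n) :=
  (readTokens (A.step ω j) 0 q ((sA e a).map some)).2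

noncomputable def memA (j : ℕ) (q : Fin s → Bool) (a : E3 m → Bool) : Fin s → Bool :=
  (readTokens (A.step ω j) 0 q ((sA e a).map some)).1

/-- what is written during the second part of pass `j` -/
noncomputable def outB (j : ℕ) (q : Fin s → Bool) (b : E3 m → Bool) : List (Fin n) :=
  (readTokens (A.step ω j) (Fintype.card (E3 m)) q ((sB e hm b).map some ++ [none])).2

/-- memory and output after `j` passes on the hard instance -/
noncomputable def rn (a b : E3 m → Bool) (j : ℕ) : (Fin s → Bool) × List (Fin n) :=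
  A.run ω (sA e a ++ sB e hm b) j

theorem rn_succ (a b : E3 m → Bool) (j : ℕ) :
    (rn A ω e hm a b (j + 1)).2 = (rn A ω e hm a b j).2 ++
      (outA A ω e j (rn A ω e hm a b j).1 a ++
        outB A ω e hm j (memA A ω e j (rn A ω e hm a b j).1 a) b) := by
  have h1 : ((sA e a ++ sB e hm b).map some ++ [none]) =
      (sA e a).map some ++ ((sB e hm b).map some ++ [none]) := by
    rw [List.map_append, List.append_assoc]
  have h2 : ((sA e a).map some).length = Fintype.card (E3 m) := by
    rw [List.length_map, length_sA]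
  conv_lhs => rw [rn, StreamAlg.run, h1, readTokens_append, h2, zero_add]
  rfl

/-- the hidden transitions written during `j` passes, among the first `K` vertices written -/
noncomputable def hid (K : ℕ) (a b : E3 m → Bool) : ℕ → List (Fin n × Fin n)
  | 0 => (trans ((A.start ω).2.take K)).filter (fun q => q ∈ sideEdges e true b)
  | j + 1 => hid K a b j ++
      ((trans ((outA A ω e j (rn A ω e hm a b j).1 a).take
          (K - (rn A ω e hm a b j).2.length))).filter (fun q => q ∈ sideEdges e true b) ++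
       (trans ((outB A ω e hm j (memA A ω e j (rn A ω e hm a b j).1 a) b).take
          (K - (rn A ω e hm a b j).2.length -
            (outA A ω e j (rn A ω e hm a b j).1 a).length))).filter
          (fun q => q ∈ sideEdges e false a))

theorem hid_sublist (K : ℕ) (a b : E3 m → Bool) (j : ℕ) :
    (hid A ω e hm K a b j).Sublist (trans ((rn A ω e hm a b j).2.take K)) := by
  induction j with
  | zero => exact List.filter_sublist
  | succ j ih =>
    rw [rn_succ, hid, List.take_append, List.take_append]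
    refine List.Sublist.trans ?_ (trans_append_sublist _ _)
    refine List.Sublist.append ih ?_
    refine List.Sublist.trans ?_ (trans_append_sublist _ _)
    exact List.Sublist.append List.filter_sublist List.filter_sublist

theorem trans_left_subset {α : Type*} (L L' : List α) (q : α × α) (hq : q ∈ trans L) :
    q ∈ trans (L ++ L') :=
  (trans_append_sublist L L').subset (List.mem_append_left _ hq)

theorem trans_right_subset {α : Type*} (L L' : List α) (q : α × α) (hq : q ∈ trans L') :
    q ∈ trans (L ++ L') :=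
  (trans_append_sublist L L').subset (List.mem_append_right _ hq)

theorem trans_take_subset {α : Type*} (L : List α) (k : ℕ) (q : α × α)
    (hq : q ∈ trans (L.take k)) : q ∈ trans L := by
  have h := trans_left_subset (L.take k) (L.drop k) q hq
  rwa [List.take_append_drop] at h

theorem length_le (K : ℕ) (a b : E3 m → Bool) (j : ℕ)
    (h : ∀ q ∈ trans (rn A ω e hm a b j).2, q ∈ sideEdges e false a ∪ sideEdges e true b) :
    ((rn A ω e hm a b j).2.take K).length ≤
      2 * (hid A ω e hm K a b j).length + 2 * (2 * j + 1) := by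
  have hAB : ∀ u v w, (u, v) ∈ sideEdges e false a →
      (v, w) ∈ sideEdges e false a ∪ sideEdges e true b → (v, w) ∈ sideEdges e true b := by
    intro u v w h1 h2
    rcases Finset.mem_union.mp h2 with h2 | h2
    · exact (next_side e _ _ _ _ _ _ h1 h2).elim
    · exact h2
  have hBA : ∀ u v w, (u, v) ∈ sideEdges e true b →
      (v, w) ∈ sideEdges e false a ∪ sideEdges e true b → (v, w) ∈ sideEdges e false a := by
    intro u v w h1 h2
    rcases Finset.mem_union.mp h2 with h2 | h2
    · exact h2
    · exact (next_side e _ _ _ _ _ _ h1 h2).elim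
  have keyA : ∀ L : List (Fin n), (∀ q ∈ trans L, q ∈ sideEdges e false a ∪ sideEdges e true b) →
      L.length ≤ 2 * ((trans L).filter (fun t => t ∈ sideEdges e false a)).length + 2 :=
    fun L hL => alternate_count _ _ hAB hBA L hL
  have keyB : ∀ L : List (Fin n), (∀ q ∈ trans L, q ∈ sideEdges e false a ∪ sideEdges e true b) →
      L.length ≤ 2 * ((trans L).filter (fun t => t ∈ sideEdges e true b)).length + 2 :=
    fun L hL => alternate_count _ _
      (fun u v w h1 h2 => hBA u v w h1 (by rwa [Finset.union_comm]))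
      (fun u v w h1 h2 => hAB u v w h1 (by rwa [Finset.union_comm])) L
      (fun q hq => by rw [Finset.union_comm]; exact hL q hq)
  induction j with
  | zero =>
    exact keyB ((A.start ω).2.take K) (fun q hq => h q (trans_take_subset _ _ q hq))
  | succ j ih =>
    rw [rn_succ] at h ⊢
    have h1 := ih (fun q hq => h q (trans_left_subset _ _ q hq))
    have h2 := keyB ((outA A ω e j (rn A ω e hm a b j).1 a).take
          (K - (rn A ω e hm a b j).2.length))
      (fun q hq => h q (trans_right_subset _ _ q (trans_left_subset _ _ q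
        (trans_take_subset _ _ q hq))))
    have h3 := keyA ((outB A ω e hm j (memA A ω e j (rn A ω e hm a b j).1 a) b).take
          (K - (rn A ω e hm a b j).2.length -
            (outA A ω e j (rn A ω e hm a b j).1 a).length))
      (fun q hq => h q (trans_right_subset _ _ q (trans_right_subset _ _ q
        (trans_take_subset _ _ q hq))))
    rw [hid, List.take_append, List.take_append]
    rw [List.length_append, List.length_append, List.length_append, List.length_append]
    omega

variable (p : ℕ)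

/-- transitions written in first parts of the passes, leaving the second side -/
noncomputable def dA (a : E3 m → Bool) (M : Fin p → (Fin s → Bool)) : Finset (Fin n × Fin n) :=
  ((trans (A.start ω).2).toFinset ∪
    Finset.univ.biUnion (fun j : Fin p => (trans (outA A ω e j (M j) a)).toFinset)).filter
      (fun q => q.1 ∈ sideVerts e true)

/-- transitions written in second parts of the passes, leaving the first side -/
noncomputable def dB (b : E3 m → Bool) (M : Fin p → (Fin s → Bool)) : Finset (Fin n × Fin n) :=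
  (Finset.univ.biUnion (fun j : Fin p => (trans (outB A ω e hm j (M j) b)).toFinset)).filter
      (fun q => q.1 ∈ sideVerts e false)

noncomputable def mA (a b : E3 m → Bool) : Fin p → (Fin s → Bool) :=
  fun j => (rn A ω e hm a b j).1

noncomputable def mB (a b : E3 m → Bool) : Fin p → (Fin s → Bool) :=
  fun j => memA A ω e j (rn A ω e hm a b j).1 a

theorem out_trans_subset (a b : E3 m → Bool) (j : ℕ) (hj : j < p) (q : Fin n × Fin n)
    (hq : q ∈ trans (outA A ω e j (rn A ω e hm a b j).1 a) ∨
      q ∈ trans (outB A ω e hm j (memA A ω e j (rn A ω e hm a b j).1 a) b)) :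
    q ∈ trans (rn A ω e hm a b p).2 := by
  induction p with
  | zero => omega
  | succ p ih =>
    rw [rn_succ]
    rcases Nat.lt_succ_iff_lt_or_eq.mp hj with hj | rfl
    · exact trans_left_subset _ _ _ (ih hj)
    · apply trans_right_subset
      rcases hq with hq | hq
      · exact trans_left_subset _ _ _ hq
      · exact trans_right_subset _ _ _ hq

theorem start_trans_subset (a b : E3 m → Bool) (q : Fin n × Fin n)
    (hq : q ∈ trans (A.start ω).2) : q ∈ trans (rn A ω e hm a b p).2 := by
  induction p with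
  | zero => exact hq
  | succ p ih => rw [rn_succ]; exact trans_left_subset _ _ _ ih

theorem hid_subset (K : ℕ) (a b : E3 m → Bool) :
    (hid A ω e hm K a b p).toFinset ⊆ dA A ω e p a (mA A ω e hm p a b) ∪
      dB A ω e hm p b (mB A ω e hm p a b) := by
  have h : ∀ j, j ≤ p → ∀ q ∈ hid A ω e hm K a b j, q ∈ dA A ω e p a (mA A ω e hm p a b) ∪
      dB A ω e hm p b (mB A ω e hm p a b) := by
    intro j
    induction j with
    | zero =>
      intro _ q hq
      rw [hid, List.mem_filter] at hq
      apply Finset.mem_union_left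
      refine Finset.mem_filter.mpr ⟨Finset.mem_union_left _
        (List.mem_toFinset.mpr (trans_take_subset _ _ q hq.1)), ?_⟩
      exact src_mem e _ _ _ (of_decide_eq_true hq.2)
    | succ j ih =>
      intro hj q hq
      rw [hid, List.mem_append, List.mem_append, List.mem_filter, List.mem_filter] at hq
      rcases hq with hq | hq | hq
      · exact ih (by omega) q hq
      · apply Finset.mem_union_left
        refine Finset.mem_filter.mpr ⟨Finset.mem_union_right _ ?_, ?_⟩
        · exact Finset.mem_biUnion.mpr ⟨⟨j, hj⟩, Finset.mem_univ _,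
            List.mem_toFinset.mpr (trans_take_subset _ _ q hq.1)⟩
        · exact src_mem e _ _ _ (of_decide_eq_true hq.2)
      · apply Finset.mem_union_right
        refine Finset.mem_filter.mpr ⟨?_, ?_⟩
        · exact Finset.mem_biUnion.mpr ⟨⟨j, hj⟩, Finset.mem_univ _,
            List.mem_toFinset.mpr (trans_take_subset _ _ q hq.1)⟩
        · exact src_mem e _ _ _ (of_decide_eq_true hq.2)
  intro q hq
  exact h p le_rfl q (List.mem_toFinset.mp hq)

variable {l k : ℕ}

theorem dA_subset (a b : E3 m → Bool)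
    (h : (rn A ω e hm a b p).2 ∈ goodSet e (bits a b) l k) :
    dA A ω e p a (mA A ω e hm p a b) ⊆ sideEdges e true b := by
  intro q hq
  obtain ⟨hq1, hq2⟩ := Finset.mem_filter.mp hq
  have hq3 : q ∈ trans (rn A ω e hm a b p).2 := by
    rcases Finset.mem_union.mp hq1 with hq1 | hq1
    · exact start_trans_subset A ω e hm p a b q (List.mem_toFinset.mp hq1)
    · obtain ⟨j, -, hj⟩ := Finset.mem_biUnion.mp hq1
      exact out_trans_subset A ω e hm p a b j j.2 q (Or.inl (List.mem_toFinset.mp hj))
  have h4 := h.2.1 q hq3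
  rcases Finset.mem_union.mp h4 with h4 | h4
  · exact absurd hq2 (src_not_mem e _ _ _ h4)
  · exact h4

theorem dB_subset (a b : E3 m → Bool)
    (h : (rn A ω e hm a b p).2 ∈ goodSet e (bits a b) l k) :
    dB A ω e hm p b (mB A ω e hm p a b) ⊆ sideEdges e false a := by
  intro q hq
  obtain ⟨hq1, hq2⟩ := Finset.mem_filter.mp hq
  have hq3 : q ∈ trans (rn A ω e hm a b p).2 := by
    obtain ⟨j, -, hj⟩ := Finset.mem_biUnion.mp hq1
    exact out_trans_subset A ω e hm p a b j j.2 q (Or.inr (List.mem_toFinset.mp hj))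
  have h4 := h.2.1 q hq3
  rcases Finset.mem_union.mp h4 with h4 | h4
  · exact h4
  · exact absurd hq2 (src_not_mem e _ _ _ h4)

theorem card_ge (hkl : k ≤ l) (a b : E3 m → Bool)
    (h : (rn A ω e hm a b p).2 ∈ goodSet e (bits a b) l k) :
    3 * k ≤ 8 * ((dA A ω e p a (mA A ω e hm p a b)).card +
      (dB A ω e hm p b (mB A ω e hm p a b)).card) + 16 * p + 12 := by
  obtain ⟨h1, h2, h3⟩ := h
  have h4 := length_le A ω e hm (k + 1) a b p h2
  have h5 := sublist_card (hid_sublist A ω e hm (k + 1) a b p)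
  have h6 := length_trans ((rn A ω e hm a b p).2.take (k + 1))
  have h7 := Finset.card_le_card (hid_subset A ω e hm p (k + 1) a b)
  have h8 := Finset.card_union_le (dA A ω e p a (mA A ω e hm p a b))
    (dB A ω e hm p b (mB A ω e hm p a b))
  rw [List.length_take, h1] at h4 h6
  rw [min_eq_left (by omega)] at h4 h6
  omega

open Classical in
theorem count_good (hkl : k ≤ l) (t : ℕ) (ht : 16 * t + 16 * p < 3 * k + 4) :
    (Finset.univ.filter (fun ab : (E3 m → Bool) × (E3 m → Bool) =>
      (rn A ω e hm ab.1 ab.2 p).2 ∈ goodSet e (bits ab.1 ab.2) l k)).card * 2 ^ t ≤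
      2 * (2 ^ Fintype.card (E3 m) * (2 ^ s) ^ p * 2 ^ Fintype.card (E3 m)) := by
  have hA := fiber_count (mA A ω e hm p) (dA A ω e p) (sideEdges e true) t
    (2 ^ Fintype.card (E3 m)) (fun D hD => subset_count e true D t hD)
  have hB := fiber_count (fun b a => mB A ω e hm p a b) (dB A ω e hm p) (sideEdges e false) t
    (2 ^ Fintype.card (E3 m)) (fun D hD => subset_count e false D t hD)
  have hcard1 : Fintype.card (E3 m → Bool) = 2 ^ Fintype.card (E3 m) := by
    rw [Fintype.card_fun, Fintype.card_bool]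
  have hcard2 : Fintype.card (Fin p → (Fin s → Bool)) = (2 ^ s) ^ p := by
    simp
  rw [hcard1, hcard2] at hA hB
  set SA := Finset.univ.filter (fun ab : (E3 m → Bool) × (E3 m → Bool) =>
        dA A ω e p ab.1 (mA A ω e hm p ab.1 ab.2) ⊆ sideEdges e true ab.2 ∧
          t ≤ (dA A ω e p ab.1 (mA A ω e hm p ab.1 ab.2)).card) with hSA
  set SB := Finset.univ.filter (fun ab : (E3 m → Bool) × (E3 m → Bool) =>
        dB A ω e hm p ab.1 ((fun b a => mB A ω e hm p a b) ab.1 ab.2) ⊆ sideEdges e false ab.2 ∧
          t ≤ (dB A ω e hm p ab.1 ((fun b a => mB A ω e hm p a b) ab.1 ab.2)).card) with hSB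
  have h1 : (Finset.univ.filter (fun ab : (E3 m → Bool) × (E3 m → Bool) =>
      (rn A ω e hm ab.1 ab.2 p).2 ∈ goodSet e (bits ab.1 ab.2) l k)) ⊆ SA ∪ SB.image Prod.swap := by
    rintro ⟨a, b⟩ hab
    have hab' := (Finset.mem_filter.mp hab).2
    have h2 := card_ge A ω e hm p hkl a b hab'
    by_cases h3 : t ≤ (dA A ω e p a (mA A ω e hm p a b)).card
    · apply Finset.mem_union_left
      exact Finset.mem_filter.mpr ⟨Finset.mem_univ _, dA_subset A ω e hm p a b hab', h3⟩
    · apply Finset.mem_union_right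
      refine Finset.mem_image.mpr ⟨(b, a), ?_, rfl⟩
      refine Finset.mem_filter.mpr ⟨Finset.mem_univ _, dB_subset A ω e hm p a b hab', ?_⟩
      show t ≤ (dB A ω e hm p b (mB A ω e hm p a b)).card
      omega
  have h2 : (Finset.univ.filter (fun ab : (E3 m → Bool) × (E3 m → Bool) =>
      (rn A ω e hm ab.1 ab.2 p).2 ∈ goodSet e (bits ab.1 ab.2) l k)).card ≤ SA.card + SB.card := by
    refine (Finset.card_le_card h1).trans ((Finset.card_union_le _ _).trans ?_)
    exact Nat.add_le_add_left Finset.card_image_le _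
  calc _ ≤ (SA.card + SB.card) * 2 ^ t := Nat.mul_le_mul_right _ h2
    _ = SA.card * 2 ^ t + SB.card * 2 ^ t := by ring
    _ ≤ _ := by linarith

end machine

/-- If every point lies in at most `C` of the sets then the sum of the probabilities is at most
`C`. -/
theorem sum_measure_le {Ω ι : Type*} [MeasurableSpace Ω] (P : Measure Ω) [IsProbabilityMeasure P]
    [Fintype ι] (S : ι → Set Ω) (hS : ∀ i, MeasurableSet (S i)) (C : ℕ)
    (hC : ∀ ω, ∀ T : Finset ι, (∀ i ∈ T, ω ∈ S i) → T.card ≤ C) :
    ∑ i, P.real (S i) ≤ C := by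
  classical
  have h1 : ∑ i, P (S i) ≤ (C : ENNReal) := by
    calc ∑ i, P (S i) = ∑ i, ∫⁻ ω, (S i).indicator 1 ω ∂P := by
          apply Finset.sum_congr rfl
          intro i _
          rw [lintegral_indicator_one (hS i)]
      _ = ∫⁻ ω, ∑ i, (S i).indicator 1 ω ∂P := by
          rw [lintegral_finsetSum]
          intro i _
          exact measurable_one.indicator (hS i)
      _ ≤ ∫⁻ _, (C : ENNReal) ∂P := by
          apply lintegral_mono
          intro ω
          have h2 : ∑ i, (S i).indicator (1 : Ω → ENNReal) ω =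
              ((Finset.univ.filter (fun i => ω ∈ S i)).card : ENNReal) := by
            rw [Finset.card_filter]
            push_cast
            apply Finset.sum_congr rfl
            intro i _
            by_cases h : ω ∈ S i
            · simp [h]
            · simp [h]
          simp only [h2]
          exact_mod_cast hC ω _ (fun i hi => (Finset.mem_filter.mp hi).2)
      _ = C := by simp
  have h2 : ∑ i, P.real (S i) = (∑ i, P (S i)).toReal := by
    rw [ENNReal.toReal_sum (fun i _ => measure_ne_top P (S i))]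
    rfl
  rw [h2]
  calc (∑ i, P (S i)).toReal ≤ (C : ENNReal).toReal :=
        ENNReal.toReal_mono (ENNReal.natCast_ne_top C) h1
    _ = C := by simp

/-- **Pass-space tradeoff.** -/
theorem tradeoff_core {n m s p l k : ℕ} {Ω : Type*} [MeasurableSpace Ω] (P : Measure Ω)
    [IsProbabilityMeasure P] (A : StreamAlg n s Ω) (e : Vx m ↪ Fin n) (hm : 0 < m) (v : Vx m)
    (hkl : k ≤ l) (hlm : 24 * k ≤ m ^ 2) (hsim : A.Simulates P p l (e v)) :
    3 * k ≤ 16 * (p * (s + 1)) + 44 := by
  classical
  by_contra hcon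
  push Not at hcon
  obtain ⟨k, rfl⟩ : ∃ k', k = k' + 1 := ⟨k - 1, by omega⟩
  obtain ⟨l, rfl⟩ : ∃ l', l = l' + 1 := ⟨l - 1, by omega⟩
  set N := Fintype.card (E3 m) with hN
  set t := p * s + 3 with ht
  have ht' : 16 * t + 16 * p < 3 * (k + 1) + 4 := by
    rw [ht]; nlinarith
  set S : (E3 m → Bool) × (E3 m → Bool) → Set Ω := fun ab =>
    {ω | (rn A ω e hm ab.1 ab.2 p).2 ∈ goodSet e (bits ab.1 ab.2) (l + 1) (k + 1)} with hS
  have hS1 : ∀ ab, MeasurableSet (S ab) := fun ab =>
    (hsim (hardGraph e hm (bits ab.1 ab.2)) _ (isStream e hm ab.1 ab.2) _).1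
  have hS2 : ∀ ab, 1 / 2 ≤ P.real (S ab) := by
    intro ab
    have h1 := (hsim (hardGraph e hm (bits ab.1 ab.2)) _ (isStream e hm ab.1 ab.2)
      (goodSet e (bits ab.1 ab.2) (l + 1) (k + 1))).2
    have h2 := walkLaw_goodSet e hm (bits ab.1 ab.2) l k (by omega) v hlm
    have h3 := (abs_le.mp h1).1
    have h4 : P.real (S ab) = P.real {ω | (A.run ω (sA e ab.1 ++ sB e hm ab.2) p).2 ∈
      goodSet e (bits ab.1 ab.2) (l + 1) (k + 1)} := rfl
    rw [h4]
    linarith
  have h1 : ∀ ω, ∀ T : Finset ((E3 m → Bool) × (E3 m → Bool)), (∀ i ∈ T, ω ∈ S i) →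
      T.card ≤ (2 ^ N * 2 ^ N) / 4 := by
    intro ω T hT
    have h2 := count_good A ω e hm p hkl t ht'
    have h3 : T.card ≤ (Finset.univ.filter (fun ab : (E3 m → Bool) × (E3 m → Bool) =>
      (rn A ω e hm ab.1 ab.2 p).2 ∈ goodSet e (bits ab.1 ab.2) (l + 1) (k + 1))).card := by
      apply Finset.card_le_card
      intro i hi
      exact Finset.mem_filter.mpr ⟨Finset.mem_univ _, hT i hi⟩
    have h4 : T.card * 2 ^ t ≤ 2 * (2 ^ N * (2 ^ s) ^ p * 2 ^ N) :=
      (Nat.mul_le_mul_right _ h3).trans h2
    have h5 : (2 : ℕ) ^ t = (2 ^ s) ^ p * 8 := by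
      rw [ht, pow_add, ← pow_mul, mul_comm s p]; norm_num
    rw [h5] at h4
    have h6 : (T.card * 4) * (2 * (2 ^ s) ^ p) ≤ (2 ^ N * 2 ^ N) * (2 * (2 ^ s) ^ p) := by
      calc _ = T.card * ((2 ^ s) ^ p * 8) := by ring
        _ ≤ _ := h4
        _ = _ := by ring
    have h7 := Nat.le_of_mul_le_mul_right h6 (by positivity)
    omega
  have h2 := sum_measure_le P S hS1 _ h1
  have h3 : (2 ^ N * 2 ^ N : ℝ) * (1 / 2) ≤ ∑ ab, P.real (S ab) := by
    calc (2 ^ N * 2 ^ N : ℝ) * (1 / 2) = ∑ ab : (E3 m → Bool) × (E3 m → Bool), (1 / 2 : ℝ) := by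
          rw [Finset.sum_const, Finset.card_univ, Fintype.card_prod, Fintype.card_fun,
            Fintype.card_bool, nsmul_eq_mul]
          push_cast
          rw [hN]
      _ ≤ _ := Finset.sum_le_sum (fun ab _ => hS2 ab)
  have h4 : (((2 ^ N * 2 ^ N) / 4 : ℕ) : ℝ) ≤ (2 ^ N * 2 ^ N : ℝ) / 4 := by
    have := @Nat.cast_div_le ℝ _ _ _ (2 ^ N * 2 ^ N) 4
    simpa using this
  have h5 : (0 : ℝ) < 2 ^ N * 2 ^ N := by positivity
  linarith

end Pool.Agent.Lib.MP_dcdb0f_lc
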